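import Pool.Agent.W2helper38.GA.Poly
import Pool.Agent.W2helper34.GT.Exm

/-!
# Groups of plane automorphisms over function fields which preserve a lattice

`C` is any class of groups with the closure properties `ClosedE C` which contains the solvable groups
and satisfies `AcylF C` (finitely generated groups which act on trees without inversions, with vertex
stabilizers in `C` and such that the paths of length at least `k` have stabilizers with at most `n`
elements, are in `C`). By published theorems the class of the groups whose wreath products with finite
groups satisfy the K- and L-theoretic Farrell–Jones conjecture with coefficients has these properties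
(`AcylF`: Knopf; solvable groups: Wegner), and it contains `GL_n(K)` for all fields `K` which are
algebraic over `ℚ` (Rüping). The Whitehead groups of the torsion-free groups in this class vanish.

Let `K` be a field of characteristic zero such that `GL_n(K)` is in `C` for all `n`, and let `O` be a
finitely generated `K`-algebra and a domain with a degree function `DegO K O` (multiplicative, with
finite-dimensional sublevels: one place at infinity; for instance a polynomial ring in any number of
variables), with field of fractions `F`. `PlaneAut F` is the group of the `F`-algebra automorphisms of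
`F[x, y]`. Let `Λ` be an `O`-submodule of `F[x, y]` whose intersections with the finite dimensional
subspaces are finitely generated over `O`, and such that each polynomial has a multiple `t • p` in `Λ`
with `t ≠ 0` in `O`. The theorem: every group of automorphisms of `F[x, y]` which map `Λ` to itself is
in `C`.

With `Λ = O[x, y]` (`aut_polynomials` below) this is the group of all automorphisms of the `O`-algebra
`O[x, y]`; for `O = K[t_1, …, t_n]` (`aut_affine_space`) it is the group of all polynomial automorphisms
of the affine space of dimension `n + 2` over `K` which fix `n` coordinates. For `n ≥ 1` these groups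
contain wild automorphisms, such as Nagata's, and they are not covered by the theorem on plane
automorphisms with algebraic coefficients
(`Pool.Agent.Results.MP_8f66f0_al.PlanePolynomialAutomorphisms`), because it is not known whether the
groups `GL_2(K(t_1, …, t_n))` are Farrell–Jones groups: the affine groups over `F` are replaced by their
subgroups which preserve lattices.

Outline of the proof. By the theorem on plane automorphisms it is enough to consider the intersection
`H` of the group with the conjugate of the affine group by an automorphism `g`. The group `H` acts
faithfully on the three-dimensional space `g (F + F x + F y)`, fixes the vector `1`, and preserves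
the intersection with `Λ`, a finitely generated `O`-module which spans this space. The image of `H` in
the automorphism group of the quotient by the line of the constants preserves a lattice of rank two,
and the kernel is commutative (translations). The class `C` is closed under extensions with
solvable kernels. The groups which preserve lattices of rank two are treated with the Bruhat–Tits tree of
the place at infinity (`Pool.Agent.W2helper34.GT`).
-/

set_option autoImplicit false

namespace Pool.Agent.Results.MP_8f66f0_al.ArithmeticPlaneAutomorphisms

open Pool.Agent.Y110.FJ (ClosedE)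
open Pool.Agent.N509.TX (AcylF)
open Pool.Agent.W2helper34.GT (DegO)

/-- the group of the `F`-algebra automorphisms of the polynomial ring `F[x, y]` in two variables -/
def PlaneAut (F : Type) [Field F] : Type :=
  MvPolynomial (Fin 2) F ≃ₐ[F] MvPolynomial (Fin 2) F

/-- the group structure: composition -/
noncomputable instance (F : Type) [Field F] : Group (PlaneAut F) := AlgEquiv.aut

/-- the action on polynomials -/
noncomputable def app {F : Type} [Field F] (φ : PlaneAut F) (p : MvPolynomial (Fin 2) F) :
    MvPolynomial (Fin 2) F :=
  DFunLike.coe (F := MvPolynomial (Fin 2) F ≃ₐ[F] MvPolynomial (Fin 2) F) φ p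

/-- Every group of automorphisms of `F[x, y]` which map the lattice `Λ` to itself is in `C`. -/
theorem result (C : ∀ (G : Type) [Group G], Prop) (hC : ClosedE C) (hA : AcylF C)
    (hS : ∀ (G : Type) [Group G], Group.IsSolvable G → C G)
    (K : Type) [Field K] [CharZero K] (hK : ∀ n : ℕ, C (GL (Fin n) K))
    (O : Type) [CommRing O] [IsDomain O] [Algebra K O] [Algebra.FiniteType K O] (d : DegO K O)
    (F : Type) [Field F] [Algebra O F] [IsFractionRing O F]
    (Λ : Submodule O (MvPolynomial (Fin 2) F))
    (h1 : ∀ V : Submodule F (MvPolynomial (Fin 2) F), FiniteDimensional F V →
      (Λ ⊓ V.restrictScalars O).FG)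
    (h2 : ∀ p : MvPolynomial (Fin 2) F, ∃ t : O, t ≠ 0 ∧ t • p ∈ Λ)
    (G : Type) [Group G] (f : G →* PlaneAut F) (hf : Function.Injective f)
    (hΛ : ∀ g, ∀ p ∈ Λ, app (f g) p ∈ Λ) : C G := by
  have hL := Pool.Agent.W2helper38.GA.latC_deg hC hS K hK O d F
  have hch : CharZero F :=
    charZero_of_injective_ringHom ((algebraMap O F).comp (algebraMap K O)).injective
  have h2' : ∀ p : MvPolynomial (Fin 2) F, ∃ t : O, algebraMap O F t ≠ 0 ∧ t • p ∈ Λ := by
    intro p
    obtain ⟨t, ht, hp⟩ := h2 p
    refine ⟨t, ?_, hp⟩
    rwa [Ne, FaithfulSMul.algebraMap_eq_zero_iff O F]
  have h4 : C ↥(show Subgroup (Pool.Agent.W2helper25.PP.GA2 F) from f.range) := by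
    refine Pool.Agent.W2helper38.GA.arith hC hA hS hL Λ h1 h2' _ ?_
    rintro _ ⟨g, rfl⟩ p hp
    exact hΛ g p hp
  exact Pool.Agent.R941.FJ.C_equiv hC.base (MonoidHom.ofInjective hf) h4

/-- Example: `Λ = O[x, y]`. -/
theorem aut_polynomials (C : ∀ (G : Type) [Group G], Prop) (hC : ClosedE C) (hA : AcylF C)
    (hS : ∀ (G : Type) [Group G], Group.IsSolvable G → C G)
    (K : Type) [Field K] [CharZero K] (hK : ∀ n : ℕ, C (GL (Fin n) K))
    (O : Type) [CommRing O] [IsDomain O] [Algebra K O] [Algebra.FiniteType K O] (d : DegO K O) :
    C (MvPolynomial (Fin 2) O ≃ₐ[O] MvPolynomial (Fin 2) O) := by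
  have hOn : IsNoetherianRing O := Algebra.FiniteType.isNoetherianRing K O
  have hch : CharZero (FractionRing O) := charZero_of_injective_ringHom
    ((algebraMap O (FractionRing O)).comp (algebraMap K O)).injective
  exact Pool.Agent.W2helper38.GA.aut_poly hC hA hS O (FractionRing O)
    (Pool.Agent.W2helper38.GA.latC_deg hC hS K hK O d (FractionRing O))

/-- Example: all automorphisms of the affine space of dimension `n + 2` which fix `n` coordinates. -/
theorem aut_affine_space (C : ∀ (G : Type) [Group G], Prop) (hC : ClosedE C) (hA : AcylF C)
    (hS : ∀ (G : Type) [Group G], Group.IsSolvable G → C G)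
    (K : Type) [Field K] [CharZero K] (hK : ∀ n : ℕ, C (GL (Fin n) K)) (n : ℕ) :
    C (MvPolynomial (Fin 2) (MvPolynomial (Fin n) K) ≃ₐ[MvPolynomial (Fin n) K]
      MvPolynomial (Fin 2) (MvPolynomial (Fin n) K)) :=
  aut_polynomials C hC hA hS K hK (MvPolynomial (Fin n) K)
    (Pool.Agent.W2helper34.GT.degMv K (Fin n))

end Pool.Agent.Results.MP_8f66f0_al.ArithmeticPlaneAutomorphisms
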