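import Pool.Agent.W2helper35.PP.Stm

/-!
# Invertible matrices over integral group rings of groups of piecewise projective homeomorphisms

A homeomorphism of the line is piecewise projective if it is given by finitely many fractional
linear maps with real coefficients.  The groups of piecewise projective homeomorphisms contain
Thompson's group `F`, the groups of Monod and of Lodha and Moore (non-amenable groups without
non-abelian free subgroups), and all groups of piecewise linear homeomorphisms of the line with
finitely many pieces.  They are torsion-free.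

Roots in such groups are unique.  In a finitely generated group of this kind the centraliser of an
element `c ≠ 1` fixes the leftmost end of the support of `c`.  If `c` is hyperbolic there, the jump
of the logarithm of the derivative (or the derivative at `-∞`) has values in a finitely generated
group and gives a homomorphism from the centraliser to `ℤ` which does not vanish at `c`; if `c` is
parabolic there, the centraliser is parabolic, with parameters in the ring of the coefficients.
-/

set_option autoImplicit false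

namespace Pool.Agent.Results.MP_8f66f0_al.PiecewiseProjective

open Pool.Agent.W2helper35.PP Pool.Agent.H23R2 Pool.Agent.H23R2.Odd Pool.Agent.H23R2.Ch
open Pool.Agent.Y72.Pl (Hm)

universe u1 u2 u3 u4

/-- (1) `Γ` is any group of piecewise projective homeomorphisms of the line: `n`-th roots are
unique for all `n ≥ 1`; in a finitely generated subgroup all but finitely many primes `p` are such
that no element `≠ 1` has a `p ^ k`-th root for all `k`; and `OddRigid` holds.
(2) `DetRigid` holds if `Γ` is residually a group of piecewise projective homeomorphisms such that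
the parameters of the parabolic germs lie in a group which is residually infinite cyclic (`RPP`).
(3) The parameters of the parabolic germs of a piecewise projective homeomorphism whose pieces are
in `SL₂(A)` lie in `A`. -/
theorem result :
    (∀ (Γ : Type u1) [Group Γ] (ρ : Γ →* (ℝ ≃o ℝ)), Function.Injective ρ →
      (∀ x : Γ, IsPP Set.univ (ρ x)) →
      (∀ n : ℕ, 0 < n → ∀ x y : Γ, x ^ n = y ^ n → x = y) ∧
      (∀ H : Subgroup Γ, H.FG → {p : ℕ | p.Prime ∧
        ∃ g ∈ H, g ≠ 1 ∧ ∀ k : ℕ, ∃ x ∈ H, x ^ (p ^ k) = g}.Finite) ∧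
      OddRigid.{u1, u2, u3, u4} Γ) ∧
    (∀ (Γ : Type u1) [Group Γ], RPP Γ → DetRigid.{u1, u3, u4} Γ) ∧
    (∀ (A : Subring ℝ) (f : ℝ ≃o ℝ), IsPP A f → ∀ κ : ℝ, IsPar f κ → κ ∈ A) := by
  refine ⟨?_, fun Γ _ h n A => pp_main h A, fun A f hf κ hκ =>
    hf.par_mem (fun x hx => A.neg_mem hx) hκ⟩
  intro Γ _ ρ hinj hρ
  have hfin : ∀ H : Subgroup Γ, H.FG → {p : ℕ | p.Prime ∧ ¬ GoodPrime H p}.Finite := by
    intro H hH
    have : Group.FG H := (Group.fg_iff_subgroup_fg H).2 hH
    exact finite_bad (ρ.comp H.subtype) (hinj.comp H.subtype_injective) (fun x => hρ x)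
  have hroot : ∀ n : ℕ, 0 < n → ∀ x y : Γ, x ^ n = y ^ n → x = y := by
    intro n hn x y hxy
    apply hinj
    apply root_unique (hρ x) (hρ y) hn
    rw [← map_pow, ← map_pow, hxy]
  have htf : ∀ g : Γ, ∀ m : ℕ, 0 < m → g ^ m = 1 → g = 1 := by
    intro g m hm hg
    exact hroot m hm g 1 (by rw [hg, one_pow])
  refine ⟨hroot, ?_, ?_⟩
  · intro H hH
    apply ((hfin H hH).union (Set.finite_singleton 2)).subset
    rintro p ⟨hp, g, hg, hg1, hdiv⟩
    by_cases hp2 : p = 2
    · exact Or.inr hp2
    left
    refine ⟨hp, fun hgood => ?_⟩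
    obtain ⟨k, hk⟩ := hgood.div ⟨g, hg⟩ (fun hc => hg1 (congrArg Subtype.val hc))
    obtain ⟨x, hx, hxg⟩ := hdiv k
    exact hk ⟨x, hx⟩ (Subtype.ext (by simpa using hxg))
  · intro r _ _ u v huv hvu
    obtain ⟨γ, _, hγ⟩ := main_sub u v huv hvu
    refine ⟨γ, ?_⟩
    set H := supGrp u v with hH
    have hfinH := hfin H (supGrp_fg u v)
    intro M _ hM Ω _ 𝒜 _ δ T n hcyc φ hφ
    refine hγ {p : ℕ | GoodPrime H p} ?_ M ?_ Ω 𝒜 δ T n hcyc φ hφ ?_
    · intro p hp
      exact ⟨hp.prime, fun g _ hg => htf g p hp.prime.pos hg⟩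
    · intro x hx hcon
      have h1 : {p : ℕ | p.Prime} ⊆ {p : ℕ | p.Prime ∧ ¬ GoodPrime H p} ∪
          ({p : ℕ | p.Prime ∧ ∃ y : M, p • y = x} ∪
            {p : ℕ | p ∈ {p : ℕ | GoodPrime H p} ∧ ¬ ∃ y : M, p • y = x}) := by
        intro p hp
        by_cases h : GoodPrime H p
        · by_cases h2 : ∃ y : M, p • y = x
          · exact Or.inr (Or.inl ⟨hp, h2⟩)
          · exact Or.inr (Or.inr ⟨h, h2⟩)
        · exact Or.inl ⟨hp, h⟩
      exact Nat.infinite_setOfPred_prime ((hfinH.union ((hM x hx).union hcon)).subset h1)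
    · rintro g hg ⟨p, hp, hr⟩
      exfalso
      obtain ⟨x0, hx0, hx0g⟩ := hr 0
      have hgH : g ∈ H := by
        rw [← hx0g]
        exact Subgroup.pow_mem _ hx0 _
      obtain ⟨k, hk⟩ := hp.div ⟨g, hgH⟩ (fun hc => hg (congrArg Subtype.val hc))
      obtain ⟨x, hx, hxg⟩ := hr k
      exact hk ⟨x, hx⟩ (Subtype.ext (by simpa using hxg))

end Pool.Agent.Results.MP_8f66f0_al.PiecewiseProjective
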