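import Pool.Agent.W2helper25.PP.Main

/-!
# Groups of polynomial automorphisms of the affine plane are Farrell–Jones groups

`C` is any class of groups with the closure properties `ClosedE C` which contains the solvable groups
and satisfies `AcylF C`: a finitely generated group that acts on a tree without inversions, such that
for some `k` and `n` the pointwise stabilizers of the paths of length at least `k` have at most `n`
elements, is in `C` if the vertex stabilizers are in `C`. All this is published for the class of the
groups whose wreath products with finite groups satisfy the K- and L-theoretic Farrell–Jones conjecture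
with coefficients (`AcylF` is a theorem of Knopf, the solvable groups are due to Wegner); the Whitehead
groups of the torsion-free groups in this class are trivial. This class also contains the groups
`GL_m(ℚ)` (Rüping).

`PlaneAut K` is the group of the `K`-algebra automorphisms of the polynomial ring `K[x, y]`, that is,
the group of the polynomial automorphisms of the affine plane over `K` (or its opposite), and
`AffineConj g` is the conjugate by `g` of the subgroup `Affine K` of the affine automorphisms
`x ↦ a x + b y + c`, `y ↦ a' x + b' y + c'`.

(1) Let `K` be a field of characteristic zero and `G` a subgroup of `PlaneAut K`. If the intersections of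
`G` with the conjugates of the affine group are in `C`, then `G` is in `C`.

(2) Let `C` contain the groups `GL_m(ℚ)`. If `K` is an algebraic extension of `ℚ`, then every group
which embeds in `PlaneAut K` is in `C`. For instance the group of the automorphisms of the ring `ℤ[x, y]`
is in `C`. So the Whitehead groups of all torsion-free groups of polynomial automorphisms of the plane
with algebraic coefficients are trivial.

These groups are in general not linear (there is no finite-dimensional representation which is
faithful on the affine and on the triangular group), and they act on their tree neither properly nor
with finitely generated stabilizers.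

Outline of the proof. Jung's theorem is proved from scratch (`jung`): if `deg φ(x) = p k` and
`deg φ(y) = q k` with coprime `p, q ≥ 2`, then `deg φ(P) ≥ 2` for all nonconstant polynomials `P`,
which is impossible for `P = φ⁻¹(x)`. (The operators `x ∂/∂x - i` raise the degree of `φ(P)` by at
most `deg φ(x) + deg φ(y) - 2`, because the Jacobian of `φ` is constant; the product of these
operators over all but one of the exponents of `x` in the leading part of `P` leaves a monomial.) So
`PlaneAut K` is the union of the groups `G_d` generated by the affine group and the group `E_d` of the
triangular automorphisms `x ↦ a x + p (y)`, `y ↦ b y + c` with `deg p ≤ d`. The graph of the cosets of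
both subgroups in `G_d` is a tree: the degrees of `g(x)`, `g(y)` define a height for which each vertex
has at most one lower neighbour. The subgroups `E_d` are solvable. The elements which fix seven
consecutive vertices, the first one a coset of `E_d`, form a group of order at most `d ^ 2`: in suitable
coordinates the linear part is diagonal with entries `α = δ ^ m`, `δ = α ^ n`, where `2 ≤ m, n ≤ d`, so that
`δ ^ (m n - 1) = 1`; and if `δ = 1` the element is a translation which changes a polynomial of degree
at least two by a constant only, so it is trivial in characteristic zero. So the finitely generated
subgroups of `PlaneAut K` act acylindrically on these trees, and `AcylF` applies.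
-/

set_option autoImplicit false

namespace Pool.Agent.Results.MP_8f66f0_al.PlanePolynomialAutomorphisms

open Pool.Agent.Y110.FJ (ClosedE)
open Pool.Agent.N509.TX (AcylF)
open Pool.Agent.W2helper25.PP (GA2 Aff Trd lin tri vx vy jung)

/-- the group of the `K`-algebra automorphisms of the polynomial ring `K[x, y]` in two variables -/
def PlaneAut (K : Type) [Field K] : Type :=
  MvPolynomial (Fin 2) K ≃ₐ[K] MvPolynomial (Fin 2) K

/-- the group structure: composition -/
noncomputable instance (K : Type) [Field K] : Group (PlaneAut K) := AlgEquiv.aut

/-- the subgroup of the affine automorphisms -/
noncomputable def Affine (K : Type) [Field K] : Subgroup (PlaneAut K) := Aff K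

/-- the elements of `Affine K` send `x` and `y` to polynomials of degree at most one -/
theorem mem_affine {K : Type} [Field K]
    (φ : MvPolynomial (Fin 2) K ≃ₐ[K] MvPolynomial (Fin 2) K) :
    Membership.mem (Affine K) φ ↔
    (∃ a b c : K, φ (MvPolynomial.X 0) = MvPolynomial.C a * MvPolynomial.X 0 +
      MvPolynomial.C b * MvPolynomial.X 1 + MvPolynomial.C c) ∧
    ∃ a b c : K, φ (MvPolynomial.X 1) = MvPolynomial.C a * MvPolynomial.X 0 +
      MvPolynomial.C b * MvPolynomial.X 1 + MvPolynomial.C c :=
  Iff.rfl

/-- the conjugate of the affine group by `g` -/
noncomputable def AffineConj {K : Type} [Field K] (g : PlaneAut K) : Subgroup (PlaneAut K) :=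
  (Affine K).map (MulAut.conj g).toMonoidHom

theorem result (C : ∀ (G : Type) [Group G], Prop) (hC : ClosedE C) (hA : AcylF C)
    (hS : ∀ (G : Type) [Group G], Group.IsSolvable G → C G) :
    (∀ (K : Type) [Field K] [CharZero K] (G : Subgroup (PlaneAut K)),
      (∀ g : PlaneAut K, C ↥(G ⊓ AffineConj g)) → C G) ∧
    ((∀ m : ℕ, C (GL (Fin m) ℚ)) →
      ∀ (K : Type) [Field K] [Algebra ℚ K] [Algebra.IsAlgebraic ℚ K] (G : Type) [Group G]
        (f : G →* PlaneAut K), Function.Injective f → C G) :=
  ⟨fun K _ _ G hG => Pool.Agent.W2helper25.PP.main1 hC hA hS K G hG,
    fun hQ K _ _ _ G _ f hf => Pool.Agent.W2helper25.PP.main2 hC hA hS hQ K G f hf⟩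

end Pool.Agent.Results.MP_8f66f0_al.PlanePolynomialAutomorphisms
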