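import Pool.Agent.W2helper34.OT.Main

/-!
# Orthogonal groups of Witt index one over polynomial rings are Farrell–Jones groups

`C` is a class of groups with the closure properties `ClosedE C`; by published theorems the class of the
groups whose wreath products with finite groups satisfy the K- and L-theoretic Farrell–Jones conjecture
with coefficients is such a class, and the Whitehead groups of its torsion-free members are trivial.
`K` is a field of characteristic different from two such that the groups `GL_n(K)` are in `C`; for the
Farrell–Jones class this is known for all algebraic extensions of `ℚ` and of `F_q(t)` (Rüping).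

Theorem. Let `A` be an invertible symmetric matrix over `K` whose Witt index is at most one: two isotropic
vectors which are orthogonal to each other are proportional. Let `F` be the field of fractions of
`K[x_1, …, x_m]` and let `G` be a group of isometries of the quadratic space `(F ^ n, A)` which preserves a
finitely generated `K[x_1, …, x_m]`-submodule which spans `F ^ n`. Then `G` is in `C`.

For instance the groups `O_A(K[x_1, …, x_m])` are in `C`, and in particular the Lorentzian orthogonal
groups `O(n, 1)(ℚ[x_1, …, x_m])`. Other lattices give for example the orthogonal groups over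
`K[x_1, …, x_m]` of all forms with polynomial coefficients which become isometric to `A` over `F`. So the
Whitehead groups of all torsion-free subgroups of these groups are trivial. For `n = 3` the group is
a form of `PGL_2`; for `n ≥ 5` the groups are not linear of degree two over a field. For `m ≥ 2` and for
fields like `ℚ` no presentation by amalgams is known; the groups are neither finitely generated nor do
they act properly on a finite dimensional nonpositively curved space in an evident way.

Outline of the proof. The total degree is minus a discrete valuation of `F`. The form `A` is unimodular over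
its valuation ring, and its reduction has Witt index at most one over the residue field: this is
proved with the leading vectors for the degree-lexicographic order (`witt_poly`). For every quadratic
form with this property and an isotropic vector `e`, the cosets of the stabilizer of the standard
lattice `Λ` in the group of isometries form a tree (`QS.isTree`): two cosets are adjacent if the
lattices satisfy `π Λ₁ ⊂ Λ₂ ⊂ π⁻¹ Λ₁` and differ. The degree of `e` with respect to a lattice is a height
function such that every lattice has exactly one lower neighbour, and two lattices have a common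
ancestor. The elements of a vertex stabilizer have bounded degree, so by the residual finite
dimensionality of `K[x_1, …, x_m]` there is a homomorphism `G → GL_N(K)` without kernel on the
stabilizer. By the closure properties (`Pool.Agent.N24.TR.tree_local`) this implies that `G` is in `C`. If
`A` is anisotropic, then `G` consists of elements of bounded degree and embeds in `GL_N(K)`.
-/

set_option autoImplicit false

namespace Pool.Agent.Results.MP_8f66f0_al.WittIndexOne

open Pool.Agent.Y110.FJ (ClosedE)
open Matrix

theorem result (C : ∀ (G : Type) [Group G], Prop) (hC : ClosedE C)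
    (K : Type) [Field K] (h2 : (2 : K) ≠ 0) (hK : ∀ n, C (GL (Fin n) K))
    (m n : ℕ) (A : Matrix (Fin n) (Fin n) K) (hA : A.IsSymm) (hdet : A.det ≠ 0)
    (hW : ∀ x y : Fin n → K, x ⬝ᵥ A *ᵥ x = 0 → y ⬝ᵥ A *ᵥ y = 0 → x ⬝ᵥ A *ᵥ y = 0 →
      ∃ a b : K, (a ≠ 0 ∨ b ≠ 0) ∧ a • x + b • y = 0)
    (F : Type) [Field F] [Algebra (MvPolynomial (Fin m) K) F]
    [IsFractionRing (MvPolynomial (Fin m) K) F] [Algebra K F]
    [IsScalarTower K (MvPolynomial (Fin m) K) F]
    (G : Type) [Group G] (ρ : G →* GL (Fin n) F) (hinj : Function.Injective ρ)
    (hiso : ∀ g, (ρ g : Matrix (Fin n) (Fin n) F)ᵀ * A.map (algebraMap K F) *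
      (ρ g : Matrix (Fin n) (Fin n) F) = A.map (algebraMap K F))
    (L : Submodule (MvPolynomial (Fin m) K) (Fin n → F)) (hL : L.FG)
    (hspan : Submodule.span F (L : Set (Fin n → F)) = ⊤)
    (hρ : ∀ g, ∀ x ∈ L, (ρ g : Matrix (Fin n) (Fin n) F) *ᵥ x ∈ L) : C G := by
  have hAF : Pool.Agent.W2helper34.OT.AF m F A = A.map (algebraMap K F) := by
    ext1 i j
    exact (IsScalarTower.algebraMap_apply K (MvPolynomial (Fin m) K) F (A i j)).symm
  let ρ' : G →* Module.End F (Fin n → F) :=
    ((Matrix.toLinAlgEquiv' : Matrix (Fin n) (Fin n) F ≃ₐ[F] _) : Matrix (Fin n) (Fin n) F →*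
      Module.End F (Fin n → F)).comp ((Units.coeHom _).comp ρ)
  have hρ' : ∀ g x, ρ' g x = (ρ g : Matrix (Fin n) (Fin n) F) *ᵥ x := fun g x => rfl
  refine Pool.Agent.W2helper34.OT.ortho hC h2 hK A hA hdet (fun x y h1 h2 h3 => ?_) L hL hspan ρ'
    (fun g h hgh => ?_) (fun g x hx => hρ g x hx) (fun g v => ?_)
  · rw [Pool.Agent.W2helper34.OT.bf_eq] at h1 h2 h3
    exact hW x y h1 h2 h3
  · apply hinj
    apply Units.ext
    exact Matrix.toLinAlgEquiv'.injective hgh
  · rw [Pool.Agent.W2helper34.OT.bf_eq, Pool.Agent.W2helper34.OT.bf_eq, hAF, hρ']
    have h3 : v ⬝ᵥ ((ρ g : Matrix (Fin n) (Fin n) F)ᵀ * A.map (algebraMap K F) *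
        (ρ g : Matrix (Fin n) (Fin n) F)) *ᵥ v = ((ρ g : Matrix (Fin n) (Fin n) F) *ᵥ v) ⬝ᵥ
        A.map (algebraMap K F) *ᵥ ((ρ g : Matrix (Fin n) (Fin n) F) *ᵥ v) := by
      rw [Matrix.mul_assoc, ← Matrix.mulVec_mulVec, ← Matrix.mulVec_mulVec,
        Matrix.dotProduct_mulVec v, Matrix.vecMul_transpose]
    rw [← h3, hiso g]

end Pool.Agent.Results.MP_8f66f0_al.WittIndexOne
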